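import Pool.Agent.H111R5.HM.Stmts

set_option autoImplicit false

open Finset

namespace Pool.Agent.H111R5.HM

theorem final (hHam : TaskHam) (hSw : TaskSw) (hCount : TaskCount) (hEx : TaskEx) :
    ¬ (∀ D : ℕ, ∀ ε : ℝ, 0 < ε → ∃ N : ℕ, ∀ n : ℕ, N ≤ n → ∀ d : Fin n → ℕ,
      (∀ i, 3 ≤ d i ∧ d i ≤ D) →
      (1 - ε) * (({G : SimpleGraph (Fin n) | ∀ v, Nat.card (G.neighborSet v) = d v}.ncard : ℕ) : ℝ)
        ≤ (({G : SimpleGraph (Fin n) |
              (∀ v, Nat.card (G.neighborSet v) = d v) ∧ G.IsHamiltonian}.ncard : ℕ) : ℝ)) := by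
  intro hcon
  obtain ⟨N, hN⟩ := hcon 99 (1 / 2) (by norm_num)
  set t : ℕ := N + 1 with ht
  obtain ⟨G₀, L, H, hdis, hun, hH, hL, hdL, hdH⟩ := hEx t
  set d : Fin (300 * t) → ℕ := fun v => Nat.card (G₀.neighborSet v) with hd
  have hmem : ∀ v, v ∈ L ∨ v ∈ H := by
    intro v
    have : v ∈ L ∪ H := by rw [hun]; exact mem_univ _
    exact mem_union.1 this
  have h1 := hN (300 * t) (by omega) d (by
    intro i
    rcases hmem i with h | h
    · rw [hd]; simp only; rw [hdL i h]; omega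
    · rw [hd]; simp only; rw [hdH i h]; omega)
  set A : Set (SimpleGraph (Fin (300 * t))) :=
    {G | (∀ v, Nat.card (G.neighborSet v) = d v) ∧ G.IsHamiltonian} with hA
  have hfin : (Gs d).Finite := Set.toFinite _
  have hpos : 0 < (Gs d).ncard := by
    rw [Set.ncard_pos hfin]
    exact ⟨G₀, fun v => rfl⟩
  have h2 := hCount hSw (Fin (300 * t)) d L H 99 (100 * t) A hdis hun hdL hdH
    (fun G hG => hG.1) (by
      intro G hG
      have := hHam (Fin (300 * t)) G L H hdis hun (by rw [Fintype.card_fin]; omega) hG.2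
      omega)
  rw [hH, hL] at h2
  have h3 : (1 - 1 / 2 : ℝ) * ((Gs d).ncard : ℝ) ≤ (A.ncard : ℝ) := h1
  have h4 : (Gs d).ncard ≤ 2 * A.ncard := by
    have : ((Gs d).ncard : ℝ) ≤ 2 * (A.ncard : ℝ) := by linarith
    exact_mod_cast this
  have ht1 : 1 ≤ t := by omega
  have h5 : 8000 * t ≤ 99 * (100 * t) - (3 * (200 * t) + 6 * 99) := by omega
  generalize hx : 99 * (100 * t) - (3 * (200 * t) + 6 * 99) = x at h2 h5
  have h6 : A.ncard * (100 * t * (8000 * t)) ≤ (Gs d).ncard * (9 * (200 * t) ^ 2) := by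
    refine le_trans ?_ h2
    gcongr
  have h7 : A.ncard * (800000 * t ^ 2) ≤ A.ncard * (720000 * t ^ 2) := by
    calc A.ncard * (800000 * t ^ 2) = A.ncard * (100 * t * (8000 * t)) := by ring
      _ ≤ (Gs d).ncard * (9 * (200 * t) ^ 2) := h6
      _ ≤ (2 * A.ncard) * (9 * (200 * t) ^ 2) := Nat.mul_le_mul_right _ h4
      _ = A.ncard * (720000 * t ^ 2) := by ring
  have hApos : 0 < A.ncard := by omega
  have h8 := Nat.le_of_mul_le_mul_left h7 hApos
  have ht2 : 0 < t ^ 2 := pow_pos (by omega) 2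
  generalize t ^ 2 = z at h8 ht2
  omega

end Pool.Agent.H111R5.HM
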