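import Pool.Agent.H111R5.HM.Stmts

set_option autoImplicit false

open Finset

namespace Pool.Agent.H111R5.HM

theorem taskHam : TaskHam := by
  intro V _ _ G L H hdis hun h3 hG
  obtain ⟨a, p, hp⟩ := hG (by omega)
  have hcyc : p.IsCycle := hp.isCycle
  have hlen : p.length = Fintype.card V := hp.length_eq
  have hsnd : (p.darts.map (fun d => d.snd)) = p.support.tail := p.map_snd_darts
  have hfst : (p.darts.map (fun d => d.fst)) = p.support.dropLast := p.map_fst_darts
  have hnd : p.support.tail.Nodup := hcyc.support_nodup
  have hperm : p.support.dropLast.Perm p.support.tail := by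
    have e1 : p.support = a :: p.support.tail := p.support_eq_cons
    have e2 : p.support = p.support.dropLast ++ [a] := by
      have h := List.dropLast_append_getLast (l := p.support) p.support_ne_nil
      rw [p.getLast_support] at h
      exact h.symm
    have e3 : (p.support.dropLast ++ [a]).Perm (a :: p.support.tail) := by
      rw [← e2]; rw [← e1]
    have e4 : (a :: p.support.dropLast).Perm (a :: p.support.tail) :=
      (List.perm_append_singleton a p.support.dropLast).symm.trans e3
    exact (List.perm_cons a).1 e4
  have hnd2 : p.support.dropLast.Nodup := hperm.nodup_iff.2 hnd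
  set l : List (V × V) := p.darts.map (fun d => (d.fst, d.snd)) with hl
  have hl1 : l.map Prod.fst = p.support.dropLast := by
    rw [hl, List.map_map, ← hfst]; rfl
  have hl2 : l.map Prod.snd = p.support.tail := by
    rw [hl, List.map_map, ← hsnd]; rfl
  have hlnd : l.Nodup := List.Nodup.of_map Prod.snd (by rw [hl2]; exact hnd)
  have hcard : l.toFinset.card = Fintype.card V := by
    rw [List.toFinset_card_of_nodup hlnd, hl, List.length_map, p.length_darts, hlen]
  have inj1 : ∀ q ∈ l, ∀ q' ∈ l, q.1 = q'.1 → q = q' := by
    intro q hq q' hq' h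
    exact List.inj_on_of_nodup_map (f := Prod.fst) (by rw [hl1]; exact hnd2) hq hq' h
  have inj2 : ∀ q ∈ l, ∀ q' ∈ l, q.2 = q'.2 → q = q' := by
    intro q hq q' hq' h
    exact List.inj_on_of_nodup_map (f := Prod.snd) (by rw [hl2]; exact hnd) hq hq' h
  have c1 : (l.toFinset.filter (fun q => q.1 ∈ H)).card ≤ H.card := by
    apply Finset.card_le_card_of_injOn Prod.fst
    · intro q hq
      exact (mem_filter.1 hq).2
    · intro q hq q' hq' h
      have hq1 := List.mem_toFinset.1 (mem_filter.1 (mem_coe.1 hq)).1
      have hq2 := List.mem_toFinset.1 (mem_filter.1 (mem_coe.1 hq')).1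
      exact inj1 q hq1 q' hq2 h
  have c2 : (l.toFinset.filter (fun q => q.2 ∈ H)).card ≤ H.card := by
    apply Finset.card_le_card_of_injOn Prod.snd
    · intro q hq
      exact (mem_filter.1 hq).2
    · intro q hq q' hq' h
      have hq1 := List.mem_toFinset.1 (mem_filter.1 (mem_coe.1 hq)).1
      have hq2 := List.mem_toFinset.1 (mem_filter.1 (mem_coe.1 hq')).1
      exact inj2 q hq1 q' hq2 h
  have hsub : l.toFinset ⊆ (l.toFinset.filter (fun q => q.1 ∈ H)) ∪
      (l.toFinset.filter (fun q => q.2 ∈ H)) ∪ prs G L L := by
    intro q hq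
    have hLH : ∀ v, v ∈ L ∨ v ∈ H := by
      intro v
      have : v ∈ L ∪ H := by rw [hun]; exact mem_univ _
      exact mem_union.1 this
    rw [mem_union, mem_union, mem_filter, mem_filter]
    by_cases h1 : q.1 ∈ H
    · exact Or.inl (Or.inl ⟨hq, h1⟩)
    · by_cases h2 : q.2 ∈ H
      · exact Or.inl (Or.inr ⟨hq, h2⟩)
      · right
        simp only [prs, mem_filter, mem_product]
        refine ⟨⟨(hLH _).resolve_right h1, (hLH _).resolve_right h2⟩, ?_⟩
        have hq' := List.mem_toFinset.1 hq
        rw [hl, List.mem_map] at hq'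
        obtain ⟨d, _, rfl⟩ := hq'
        exact d.adj
  have hcn : Fintype.card V = L.card + H.card := by
    rw [← Finset.card_union_of_disjoint hdis, hun, Finset.card_univ]
  have := Finset.card_le_card hsub
  have h5 := Finset.card_union_le ((l.toFinset.filter (fun q => q.1 ∈ H)) ∪
      (l.toFinset.filter (fun q => q.2 ∈ H))) (prs G L L)
  have h6 := Finset.card_union_le (l.toFinset.filter (fun q => q.1 ∈ H))
      (l.toFinset.filter (fun q => q.2 ∈ H))
  omega

end Pool.Agent.H111R5.HM
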