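import Pool.Agent.H111R5.HM.Stmts

/-! Task HM-SW: properties of the switching. -/

set_option autoImplicit false

namespace Pool.Agent.H111R5.HM

theorem sw_adj {V : Type} (G : SimpleGraph V) (u v x y a b : V) :
    (sw G u v x y).Adj a b ↔
      (((G.Adj a b ∧ ¬ (s(a, b) = s(u, v) ∨ s(a, b) = s(x, y))) ∨
        (s(a, b) = s(u, x) ∨ s(a, b) = s(v, y))) ∧ a ≠ b) := by
  unfold sw
  rw [SimpleGraph.fromEdgeSet_adj]
  simp only [Set.mem_union, Set.mem_sdiff, Set.mem_insert_iff, Set.mem_singleton_iff,
    SimpleGraph.mem_edgeSet]

theorem card_exch {V : Type} [Fintype V] (G G' : SimpleGraph V) (a p q : V)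
    (hp : ¬ G.Adj a p) (hq : G.Adj a q)
    (h : ∀ b, G'.Adj a b ↔ (b = p ∨ (G.Adj a b ∧ b ≠ q))) :
    Nat.card (G'.neighborSet a) = Nat.card (G.neighborSet a) := by
  rw [Nat.card_coe_set_eq, Nat.card_coe_set_eq]
  have : G'.neighborSet a = insert p (G.neighborSet a \ {q}) := by
    ext b
    simp only [SimpleGraph.mem_neighborSet, Set.mem_insert_iff, Set.mem_sdiff,
      Set.mem_singleton_iff]
    exact h b
  rw [this]
  exact Set.ncard_exchange (by simpa using hp) (by simpa using hq)

theorem taskSw : TaskSw := by
  intro V _ _ u v x y
  refine ⟨?_, ?_⟩
  · intro G hok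
    obtain ⟨huv, hxy, hux, hvy, n1, n2, n3, n4⟩ := hok
    have nuv : u ≠ v := huv.ne
    have nxy : x ≠ y := hxy.ne
    refine ⟨?_, ?_, ?_⟩
    · intro a
      by_cases hau : a = u
      · subst hau
        apply card_exch G _ a x v hux huv
        intro b
        rw [sw_adj]
        simp only [Sym2.eq_iff]
        have hvx : ¬ (v = x) := n3
        constructor
        · rintro ⟨(⟨h1, h2⟩ | h2), h3⟩
          · right
            refine ⟨h1, ?_⟩
            rintro rfl
            exact h2 (Or.inl (Or.inl ⟨trivial, rfl⟩))
          · rcases h2 with (h2 | h2) | (h2 | h2)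
            · left; exact h2.2
            · exact absurd h2.1 n1
            · exact absurd h2.1 nuv
            · exact absurd h2.1 n2
        · rintro (rfl | ⟨h1, h2⟩)
          · exact ⟨Or.inr (Or.inl (Or.inl ⟨trivial, rfl⟩)), n1⟩
          · refine ⟨Or.inl ⟨h1, ?_⟩, h1.ne⟩
            rintro ((h | h) | (h | h))
            · exact h2 h.2
            · exact nuv h.1
            · exact n1 h.1
            · exact n2 h.1
      · by_cases hav : a = v
        · subst hav
          apply card_exch G _ a y u hvy huv.symm
          intro b
          rw [sw_adj]
          simp only [Sym2.eq_iff]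
          constructor
          · rintro ⟨(⟨h1, h2⟩ | h2), h3⟩
            · right
              refine ⟨h1, ?_⟩
              rintro rfl
              exact h2 (Or.inl (Or.inr ⟨trivial, rfl⟩))
            · rcases h2 with (h2 | h2) | (h2 | h2)
              · exact absurd h2.1 hau
              · exact absurd h2.1 n3
              · left; exact h2.2
              · exact absurd h2.1 n4
          · rintro (rfl | ⟨h1, h2⟩)
            · exact ⟨Or.inr (Or.inr (Or.inl ⟨trivial, rfl⟩)), n4⟩
            · refine ⟨Or.inl ⟨h1, ?_⟩, h1.ne⟩
              rintro ((h | h) | (h | h))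
              · exact hau h.1
              · exact h2 h.2
              · exact n3 h.1
              · exact n4 h.1
        · by_cases hax : a = x
          · subst hax
            apply card_exch G _ a u y (fun h => hux h.symm) hxy
            intro b
            rw [sw_adj]
            simp only [Sym2.eq_iff]
            constructor
            · rintro ⟨(⟨h1, h2⟩ | h2), h3⟩
              · right
                refine ⟨h1, ?_⟩
                rintro rfl
                exact h2 (Or.inr (Or.inl ⟨trivial, rfl⟩))
              · rcases h2 with (h2 | h2) | (h2 | h2)
                · exact absurd h2.1 hau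
                · left; exact h2.2
                · exact absurd h2.1 hav
                · exact absurd h2.1 nxy
            · rintro (rfl | ⟨h1, h2⟩)
              · exact ⟨Or.inr (Or.inl (Or.inr ⟨trivial, rfl⟩)), fun h => n1 h.symm⟩
              · refine ⟨Or.inl ⟨h1, ?_⟩, h1.ne⟩
                rintro ((h | h) | (h | h))
                · exact hau h.1
                · exact hav h.1
                · exact h2 h.2
                · exact nxy h.1
          · by_cases hay : a = y
            · subst hay
              apply card_exch G _ a v x (fun h => hvy h.symm) hxy.symm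
              intro b
              rw [sw_adj]
              simp only [Sym2.eq_iff]
              constructor
              · rintro ⟨(⟨h1, h2⟩ | h2), h3⟩
                · right
                  refine ⟨h1, ?_⟩
                  rintro rfl
                  exact h2 (Or.inr (Or.inr ⟨trivial, rfl⟩))
                · rcases h2 with (h2 | h2) | (h2 | h2)
                  · exact absurd h2.1 hau
                  · exact absurd h2.1 hax
                  · exact absurd h2.1 hav
                  · left; exact h2.2
              · rintro (rfl | ⟨h1, h2⟩)
                · exact ⟨Or.inr (Or.inr (Or.inr ⟨trivial, rfl⟩)), fun h => n4 h.symm⟩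
                · refine ⟨Or.inl ⟨h1, ?_⟩, h1.ne⟩
                  rintro ((h | h) | (h | h))
                  · exact hau h.1
                  · exact hav h.1
                  · exact hax h.1
                  · exact h2 h.2
            · have : (sw G u v x y).neighborSet a = G.neighborSet a := by
                ext b
                simp only [SimpleGraph.mem_neighborSet]
                rw [sw_adj]
                simp only [Sym2.eq_iff]
                constructor
                · rintro ⟨(⟨h1, h2⟩ | h2), h3⟩
                  · exact h1
                  · rcases h2 with (h2 | h2) | (h2 | h2)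
                    · exact absurd h2.1 hau
                    · exact absurd h2.1 hax
                    · exact absurd h2.1 hav
                    · exact absurd h2.1 hay
                · intro h1
                  refine ⟨Or.inl ⟨h1, ?_⟩, h1.ne⟩
                  rintro ((h | h) | (h | h))
                  · exact hau h.1
                  · exact hav h.1
                  · exact hax h.1
                  · exact hay h.1
              rw [this]
    · rw [sw_adj]; exact ⟨Or.inr (Or.inl rfl), n1⟩
    · rw [sw_adj]; exact ⟨Or.inr (Or.inr rfl), n4⟩
  · intro G G' hok hok' heq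
    obtain ⟨huv, hxy, hux, hvy, n1, n2, n3, n4⟩ := hok
    obtain ⟨huv', hxy', hux', hvy', -, -, -, -⟩ := hok'
    ext a b
    have key : (sw G u v x y).Adj a b ↔ (sw G' u v x y).Adj a b := by rw [heq]
    rw [sw_adj, sw_adj] at key
    by_cases h1 : s(a, b) = s(u, v)
    · have e1 : G.Adj a b := by
        rw [← SimpleGraph.mem_edgeSet, h1]; exact huv
      have e2 : G'.Adj a b := by
        rw [← SimpleGraph.mem_edgeSet, h1]; exact huv'
      exact ⟨fun _ => e2, fun _ => e1⟩
    by_cases h2 : s(a, b) = s(x, y)
    · have e1 : G.Adj a b := by
        rw [← SimpleGraph.mem_edgeSet, h2]; exact hxy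
      have e2 : G'.Adj a b := by
        rw [← SimpleGraph.mem_edgeSet, h2]; exact hxy'
      exact ⟨fun _ => e2, fun _ => e1⟩
    by_cases h3 : s(a, b) = s(u, x)
    · have e1 : ¬ G.Adj a b := by
        rw [← SimpleGraph.mem_edgeSet, h3]; exact hux
      have e2 : ¬ G'.Adj a b := by
        rw [← SimpleGraph.mem_edgeSet, h3]; exact hux'
      exact ⟨fun h => absurd h e1, fun h => absurd h e2⟩
    by_cases h4 : s(a, b) = s(v, y)
    · have e1 : ¬ G.Adj a b := by
        rw [← SimpleGraph.mem_edgeSet, h4]; exact hvy
      have e2 : ¬ G'.Adj a b := by
        rw [← SimpleGraph.mem_edgeSet, h4]; exact hvy'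
      exact ⟨fun h => absurd h e1, fun h => absurd h e2⟩
    by_cases hab : a = b
    · subst hab; simp
    simp only [h1, h2, h3, h4, or_self, not_false_eq_true, and_true, or_false, ne_eq, hab] at key
    exact key

end Pool.Agent.H111R5.HM
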