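import Mathlib

/-! Project H111-HM (MP_3394e2_pr, frozen S19260): random graphs with all degrees in `{3, 99}`
(one third of the vertices of degree 99) are mostly not Hamiltonian: by a switching argument few
edges join two vertices of degree three, but a Hamilton cycle needs many such edges. -/

set_option autoImplicit false

open Finset

namespace Pool.Agent.H111R5.HM

open Classical in
/-- ordered pairs of adjacent vertices, the first in `A`, the second in `B` -/
noncomputable def prs {V : Type} [Fintype V] (G : SimpleGraph V) (A B : Finset V) : Finset (V × V) :=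
  (A ×ˢ B).filter (fun p => G.Adj p.1 p.2)

/-- the switching: remove `uv` and `xy`, add `ux` and `vy` -/
def sw {V : Type} (G : SimpleGraph V) (u v x y : V) : SimpleGraph V :=
  SimpleGraph.fromEdgeSet ((G.edgeSet \ {s(u, v), s(x, y)}) ∪ {s(u, x), s(v, y)})

/-- the switching is allowed -/
structure Ok {V : Type} (G : SimpleGraph V) (u v x y : V) : Prop where
  uv : G.Adj u v
  xy : G.Adj x y
  ux : ¬ G.Adj u x
  vy : ¬ G.Adj v y
  n1 : u ≠ x
  n2 : u ≠ y
  n3 : v ≠ x
  n4 : v ≠ y

/-- graphs with degree sequence `d` -/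
def Gs {V : Type} (d : V → ℕ) : Set (SimpleGraph V) := {G | ∀ v, Nat.card (G.neighborSet v) = d v}

/-- TASK HAM: a Hamilton cycle has at least `|L| - |H|` edges inside `L` -/
def TaskHam : Prop := ∀ (V : Type) [Fintype V] [DecidableEq V] (G : SimpleGraph V) (L H : Finset V),
  Disjoint L H → L ∪ H = univ → 3 ≤ Fintype.card V → G.IsHamiltonian →
  L.card ≤ (prs G L L).card + H.card

/-- TASK SW: properties of the switching -/
def TaskSw : Prop := ∀ (V : Type) [Fintype V] [DecidableEq V] (u v x y : V),
  (∀ G : SimpleGraph V, Ok G u v x y →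
    (∀ a, Nat.card ((sw G u v x y).neighborSet a) = Nat.card (G.neighborSet a)) ∧
    (sw G u v x y).Adj u x ∧ (sw G u v x y).Adj v y) ∧
  (∀ G G' : SimpleGraph V, Ok G u v x y → Ok G' u v x y → sw G u v x y = sw G' u v x y → G = G')

/-- TASK COUNT: double counting of switchings; `A` is a set of graphs having many edges inside `L` -/
def TaskCount : Prop := TaskSw → ∀ (V : Type) [Fintype V] [DecidableEq V] (d : V → ℕ) (L H : Finset V) (D M : ℕ)
  (A : Set (SimpleGraph V)), Disjoint L H → L ∪ H = univ → (∀ v ∈ L, d v = 3) → (∀ v ∈ H, d v = D) →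
  A ⊆ Gs d → (∀ G ∈ A, M ≤ (prs G L L).card) →
  A.ncard * (M * (D * H.card - (3 * L.card + 6 * D))) ≤ (Gs d).ncard * (9 * L.card ^ 2)

/-- TASK EX: a graph with the required degrees (disjoint union of `t` cliques on 100 vertices and
`50 t` cliques on four vertices) -/
def TaskEx : Prop := ∀ t : ℕ, ∃ (G : SimpleGraph (Fin (300 * t))) (L H : Finset (Fin (300 * t))),
  Disjoint L H ∧ L ∪ H = univ ∧ H.card = 100 * t ∧ L.card = 200 * t ∧
  (∀ v ∈ L, Nat.card (G.neighborSet v) = 3) ∧ (∀ v ∈ H, Nat.card (G.neighborSet v) = 99)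

end Pool.Agent.H111R5.HM
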